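import Pool.Agent.Helper46.CU.Stmts

/-! # Counting solutions of `(a³ - 1)(b³ - 1) = x²`: the final form -/

set_option autoImplicit false

namespace Pool.Agent.Helper46.CU

open Finset

theorem fin_result (h1 : ST_ALL) :
    ∀ ε : ℝ, 0 < ε → ∃ C : ℝ, ∀ A B : ℕ, 1 ≤ A → A ≤ B →
      (({p : ℕ × ℕ | 1 ≤ p.1 ∧ p.1 ≤ A ∧ p.1 < p.2 ∧ p.2 ≤ B ∧
        ∃ x : ℕ, 1 ≤ x ∧ ((p.1 : ℤ) ^ 3 - 1) * ((p.2 : ℤ) ^ 3 - 1) = (x : ℤ) ^ 2}.ncard : ℕ) : ℝ) ≤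
      C * ((A : ℝ) ^ (2 / 3 : ℝ) + (A : ℝ) ^ (1 / 6 : ℝ) * (B : ℝ) ^ (1 / 2 : ℝ)) *
        (B : ℝ) ^ ε := by
  intro ε hε
  obtain ⟨C, -, hC⟩ := h1 ε hε
  refine ⟨C, fun A B hA hAB => le_trans ?_ (hC A B hA hAB)⟩
  have hsub : {p : ℕ × ℕ | 1 ≤ p.1 ∧ p.1 ≤ A ∧ p.1 < p.2 ∧ p.2 ≤ B ∧
      ∃ x : ℕ, 1 ≤ x ∧ ((p.1 : ℤ) ^ 3 - 1) * ((p.2 : ℤ) ^ 3 - 1) = (x : ℤ) ^ 2} ⊆
      (allS A B : Set (ℕ × ℕ)) := by
    rintro ⟨a, b⟩ ⟨ha1, haA, hab, hbB, x, hx, he⟩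
    simp only at ha1 haA hab hbB he
    have ha2 : 2 ≤ a := by
      by_contra h
      have h1 : a = 1 := by omega
      subst h1
      simp at he
      have : x = 0 := by
        have h2 : (x : ℤ) ^ 2 = 0 := he.symm
        have h3 : (x : ℤ) = 0 := by simpa using h2
        exact_mod_cast h3
      omega
    have hb2 : 2 ≤ b := by omega
    simp only [allS, coe_filter, mem_product, mem_Icc, Set.mem_setOf_eq]
    refine ⟨⟨⟨ha2, haA⟩, ⟨hb2, hbB⟩⟩, hab, x, ?_⟩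
    have e1 : ((a ^ 3 - 1 : ℕ) : ℤ) = (a : ℤ) ^ 3 - 1 := by
      have : 1 ≤ a ^ 3 := Nat.one_le_pow _ _ (by omega)
      push_cast [Nat.cast_sub this]
      ring
    have e2 : ((b ^ 3 - 1 : ℕ) : ℤ) = (b : ℤ) ^ 3 - 1 := by
      have : 1 ≤ b ^ 3 := Nat.one_le_pow _ _ (by omega)
      push_cast [Nat.cast_sub this]
      ring
    have e3 : (((a ^ 3 - 1) * (b ^ 3 - 1) : ℕ) : ℤ) = ((x * x : ℕ) : ℤ) := by
      push_cast [e1, e2]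
      rw [he]
      ring
    exact_mod_cast e3
  have h2 := Set.ncard_le_ncard hsub (Finset.finite_toSet _)
  rw [Set.ncard_coe_finset] at h2
  exact_mod_cast h2

end Pool.Agent.Helper46.CU
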