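import Pool.Agent.Helper15.HallDiv

/-!
# Counting solutions of `(a³ - 1)(b³ - 1) = x²`: statements of the modules

Natural subtraction is used throughout; all numbers `a`, `b` which occur are at least two (or the
expressions are zero).
-/

set_option autoImplicit false

namespace Pool.Agent.Helper46.CU

open Finset

/-- the numbers `1 ≤ b ≤ B` for which `b² + b + 1` is `D` times a square -/
noncomputable def pellS (D B : ℕ) : Finset ℕ := by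
  classical exact (Icc 1 B).filter (fun b => ∃ s : ℕ, b ^ 2 + b + 1 = D * s ^ 2)

/-- the numbers `1 ≤ a ≤ A` with `r² ∣ a - 1` and `s² ∣ a² + a + 1` -/
noncomputable def clsS (r s A : ℕ) : Finset ℕ := by
  classical exact (Icc 1 A).filter (fun a => r ^ 2 ∣ a - 1 ∧ s ^ 2 ∣ a ^ 2 + a + 1)

/-- the numbers `2 ≤ a ≤ A` for which `a³ - 1` has a square divisor `y²` with `y ≥ Y` -/
noncomputable def lrgS (A : ℕ) (Y : ℝ) : Finset ℕ := by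
  classical exact (Icc 2 A).filter (fun a => ∃ y : ℕ, Y ≤ (y : ℝ) ∧ y ^ 2 ∣ a ^ 3 - 1)

/-- the partners `2 ≤ b ≤ B` of `a` -/
noncomputable def parS (a B : ℕ) : Finset ℕ := by
  classical exact (Icc 2 B).filter (fun b => IsSquare ((a ^ 3 - 1) * (b ^ 3 - 1)))

/-- pairs with a small quotient in a block -/
noncomputable def smlS (A B : ℕ) (Y : ℝ) : Finset (ℕ × ℕ) := by
  classical exact (Icc 2 A ×ˢ Icc 2 B).filter (fun p => A < 2 * p.1 ∧ p.1 < p.2 ∧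
    ∃ y z m : ℕ, 1 ≤ y ∧ y < z ∧ (y : ℝ) < Y ∧ p.1 ^ 3 - 1 = m * y ^ 2 ∧ p.2 ^ 3 - 1 = m * z ^ 2)

/-- the pairs `A / 2 < a ≤ A`, `a < b ≤ B` of a block -/
noncomputable def blkS (A B : ℕ) : Finset (ℕ × ℕ) := by
  classical exact (Icc 2 A ×ˢ Icc 2 B).filter (fun p => A < 2 * p.1 ∧ p.1 < p.2 ∧
    IsSquare ((p.1 ^ 3 - 1) * (p.2 ^ 3 - 1)))

/-- all pairs `2 ≤ a ≤ A`, `a < b ≤ B` -/
noncomputable def allS (A B : ℕ) : Finset (ℕ × ℕ) := by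
  classical exact (Icc 2 A ×ˢ Icc 2 B).filter (fun p => p.1 < p.2 ∧
    IsSquare ((p.1 ^ 3 - 1) * (p.2 ^ 3 - 1)))

/-- the main term -/
noncomputable def mt (A B : ℕ) : ℝ :=
  (A : ℝ) ^ (2 / 3 : ℝ) + (A : ℝ) ^ (1 / 6 : ℝ) * (B : ℝ) ^ (1 / 2 : ℝ)

/-- PELL: few solutions of `b² + b + 1 = D s²` -/
def ST_PELL : Prop := ∀ D B : ℕ, 1 ≤ D → 1 ≤ B → (pellS D B).card ≤ 3 * (1 + Nat.log 2 (B + 1))

/-- CLS: `r² ∣ a - 1`, `s² ∣ a² + a + 1` in terms of residue classes modulo `r² s²` -/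
def ST_CLS : Prop := ∀ r s A : ℕ, 1 ≤ r → 1 ≤ s → Nat.Coprime r s →
  ((clsS r s A).card : ℝ) ≤ ((s ^ 2).divisors.card : ℝ) * ((A : ℝ) / ((r : ℝ) * s) ^ 2 + 1)

/-- SPL: splitting a square divisor of `a³ - 1` -/
def ST_SPL : Prop := ∀ a y : ℕ, 2 ≤ a → y ^ 2 ∣ a ^ 3 - 1 → ∃ r s u v : ℕ,
  1 ≤ r ∧ 1 ≤ s ∧ a - 1 = r ^ 2 * u ∧ a ^ 2 + a + 1 = s ^ 2 * v ∧ Nat.Coprime r s ∧
  y ∣ 3 * r * s

/-- LRG: few `a` for which `a³ - 1` has a large square divisor -/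
def ST_LRG : Prop := ∀ ε : ℝ, 0 < ε → ∃ C : ℝ, 0 < C ∧ ∀ A : ℕ, 1 ≤ A → ∀ Y : ℝ, 0 < Y →
  ((lrgS A Y).card : ℝ) ≤ C * (A : ℝ) ^ ε * ((A : ℝ) / Y + (A : ℝ) ^ (2 / 3 : ℝ))

/-- PRT: few partners -/
def ST_PRT : Prop := ∀ ε : ℝ, 0 < ε → ∃ C : ℝ, 0 < C ∧ ∀ a B : ℕ, 2 ≤ a → 2 ≤ B →
  ((parS a B).card : ℝ) ≤ C * ((a : ℝ) * B) ^ ε

/-- GAP: two pairs with the same quotient are far apart -/
def ST_GAP : Prop := ∀ y z a b a' b' : ℕ, 1 ≤ y → y < z → 2 ≤ a → 2 ≤ a' → b < b' →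
  z ^ 2 * (a ^ 3 - 1) = y ^ 2 * (b ^ 3 - 1) → z ^ 2 * (a' ^ 3 - 1) = y ^ 2 * (b' ^ 3 - 1) →
  a ^ 2 < b'

/-- RED: the reduced quotient of a pair -/
def ST_RED : Prop := ∀ a b : ℕ, 2 ≤ a → a < b → IsSquare ((a ^ 3 - 1) * (b ^ 3 - 1)) →
  ∃ y z m : ℕ, 1 ≤ y ∧ y < z ∧ a ^ 3 - 1 = m * y ^ 2 ∧ b ^ 3 - 1 = m * z ^ 2

/-- SML: few pairs with a small quotient -/
def ST_SML : Prop := ∀ A B : ℕ, 2 ≤ A → A ≤ B → 4 * B ≤ A ^ 2 → ∀ Y : ℝ, 1 ≤ Y →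
  ((smlS A B Y).card : ℝ) ≤ 4 * Y ^ 2 * ((B : ℝ) / A) ^ (3 / 2 : ℝ)

/-- BLK: the bound for a block -/
def ST_BLK : Prop := ∀ ε : ℝ, 0 < ε → ∃ C : ℝ, 0 < C ∧ ∀ A B : ℕ, 2 ≤ A → A ≤ B →
  ((blkS A B).card : ℝ) ≤ C * mt A B * (B : ℝ) ^ ε

/-- ALL: the bound for all pairs -/
def ST_ALL : Prop := ∀ ε : ℝ, 0 < ε → ∃ C : ℝ, 0 < C ∧ ∀ A B : ℕ, 1 ≤ A → A ≤ B →
  ((allS A B).card : ℝ) ≤ C * mt A B * (B : ℝ) ^ ε

end Pool.Agent.Helper46.CU
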